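import Mathlib

set_option autoImplicit false

namespace Pool.Agent.P.MP_fdecab_lc

open FirstOrder FirstOrder.Language

universe u

/-- A `k`-colouring of the copies in `M` of the enumerated structure on `Fin n` is externally
definable. -/
def ExtDef (L : FirstOrder.Language.{0, 0}) (M : Type u) [L.Structure M] (n : ℕ)
    [L.Structure (Fin n)] (k : ℕ) (χ : (Fin n ↪[L] M) → Fin k) : Prop :=
  ∃ (N : Type u) (_ : L.Structure N) (j : M ↪ₑ[L] N) (m : ℕ) (e : Fin m → N)
    (φ : Fin k → L.Formula (Fin m ⊕ Fin n)),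
    ∀ (f : Fin n ↪[L] M) (i : Fin k),
      χ f = i ↔ (φ i).Realize (Sum.elim e (fun a => j (f a)))

/-- The externally definable Ramsey property. -/
def EDRP (L : FirstOrder.Language.{0, 0}) (M : Type u) [L.Structure M] : Prop :=
  ∀ (n : ℕ) (_ : L.Structure (Fin n)) (B : Type) (_ : L.Structure B), Finite B →
    Nonempty (Fin n ↪[L] M) → Nonempty (B ↪[L] M) →
    ∀ (k : ℕ), 1 ≤ k → ∀ χ : (Fin n ↪[L] M) → Fin k, ExtDef L M n k χ →
      ∃ g : B ↪[L] M, ∀ f f' : Fin n ↪[L] M,
        Set.range f ⊆ Set.range g → Set.range f' ⊆ Set.range g → χ f = χ f'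

/-- The set of formulas obtained from the type `p` by applying `g` to the parameters. -/
def act (L : FirstOrder.Language.{0, 0}) (M : Type u) [L.Structure M] (n : ℕ) (g : M ≃[L] M)
    (p : (L.elementaryDiagram M).CompleteType (Fin n)) : L[[M]][[Fin n]].Theory :=
  ((L.lhomWithConstantsMap (fun b : M => g b)).addConstants (Fin n)).onTheory p.toTheory

/-- The fixed points on type spaces property. -/
def FPT (L : FirstOrder.Language.{0, 0}) (M : Type u) [L.Structure M] : Prop :=
  ∀ (n : ℕ), 1 ≤ n → ∀ X : Set ((L.elementaryDiagram M).CompleteType (Fin n)),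
    X.Nonempty → IsClosed X →
    (∀ (g : M ≃[L] M), ∀ p ∈ X, ∃ q ∈ X, q.toTheory = act L M n g p) →
    ∃ p ∈ X, ∀ g : M ≃[L] M, act L M n g p = p.toTheory

end Pool.Agent.P.MP_fdecab_lc
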