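import Mathlib
import Pool.Agent.P.MP_fdecab_lc.Defs

set_option autoImplicit false
set_option linter.style.haveILetI false

namespace Pool.Agent.P.MP_fdecab_lc

open FirstOrder FirstOrder.Language

universe u

variable {L : FirstOrder.Language.{0, 0}} {M : Type u}

/-- renaming of the parameters -/
def sh (L : FirstOrder.Language.{0, 0}) {M : Type u} (n : ℕ) (f : M → M) :
    L[[M]][[Fin n]] →ᴸ L[[M]][[Fin n]] :=
  (L.lhomWithConstantsMap f).addConstants (Fin n)

theorem sh_comp (n : ℕ) (f g : M → M) : (sh L n f).comp (sh L n g) = sh L n (f ∘ g) := by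
  ext k x
  · rcases x with (x | x) | x
    · rfl
    · cases k
      · rfl
      · exact x.elim
    · rfl
  · rcases x with (x | x) | x
    · rfl
    · exact x.elim
    · rfl

theorem sh_id (n : ℕ) : sh L n (id : M → M) = LHom.id _ := by
  ext k x
  · rcases x with (x | x) | x
    · rfl
    · cases k
      · rfl
      · exact x.elim
    · rfl
  · rcases x with (x | x) | x
    · rfl
    · exact x.elim
    · rfl

theorem sh_sh (n : ℕ) (f g : M → M) (ψ : L[[M]][[Fin n]].Sentence) :
    (sh L n f).onSentence ((sh L n g).onSentence ψ) = (sh L n (f ∘ g)).onSentence ψ := by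
  rw [← sh_comp]
  exact (congrFun (LHom.comp_onBoundedFormula (sh L n f) (sh L n g)) ψ).symm

theorem sh_id_apply (n : ℕ) (ψ : L[[M]][[Fin n]].Sentence) :
    (sh L n (id : M → M)).onSentence ψ = ψ := by
  rw [sh_id]
  exact congrFun LHom.id_onBoundedFormula ψ

section
variable {n : ℕ} {N : Type u}

@[instance_reducible]
def mid (S : L[[M]][[Fin n]].Structure N) : L[[M]].Structure N :=
  (L[[M]].lhomWithConstants (Fin n)).reduct N

@[instance_reducible]
def base (S : L[[M]][[Fin n]].Structure N) : L.Structure N :=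
  letI := mid S
  (L.lhomWithConstants M).reduct N

def cM (S : L[[M]][[Fin n]].Structure N) (b : M) : N :=
  letI := mid S
  (L.con b : N)

def cv (S : L[[M]][[Fin n]].Structure N) (i : Fin n) : N :=
  (L[[M]].con i : N)

def tr (ψ : L[[M]][[Fin n]].Sentence) : L.Formula (M ⊕ Fin n) :=
  BoundedFormula.constantsVarsEquiv (Formula.equivSentence.symm ψ)

theorem realize_tr (S : L[[M]][[Fin n]].Structure N) (ψ : L[[M]][[Fin n]].Sentence) :
    @Sentence.Realize _ N S ψ ↔
      @Formula.Realize L N (base S) _ (tr ψ) (Sum.elim (cM S) (cv S)) := by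
  letI := mid S
  letI := base S
  haveI : (L[[M]].lhomWithConstants (Fin n)).IsExpansionOn N := LHom.isExpansionOn_reduct _ _
  haveI : (L.lhomWithConstants M).IsExpansionOn N := LHom.isExpansionOn_reduct _ _
  rw [← Formula.realize_equivSentence_symm_con N ψ]
  exact BoundedFormula.realize_constantsVarsEquiv.symm

theorem realize_sh (S : L[[M]][[Fin n]].Structure N) (f : M → M) (ψ : L[[M]][[Fin n]].Sentence) :
    @Sentence.Realize _ N S ((sh L n f).onSentence ψ) ↔
      @Formula.Realize L N (base S) _ (tr ψ) (Sum.elim (fun b => cM S (f b)) (cv S)) := by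
  have h := realize_tr ((sh L n f).reduct N) ψ
  have h2 := @LHom.realize_onSentence _ _ N ((sh L n f).reduct N) S (sh L n f)
    (LHom.isExpansionOn_reduct _ _) ψ
  rw [h2, h]
  rfl

end

variable [L.Structure M]

theorem exists_enum [L.IsRelational] (s : Set M) (hs : s.Finite) :
    ∃ (m : ℕ) (_ : L.Structure (Fin m)) (ι : Fin m ↪[L] M), Set.range ι = s := by
  obtain ⟨m, en, hinj, hen⟩ := hs.fin_param
  letI : L.Structure (Fin m) :=
    { funMap := fun f => isEmptyElim f
      RelMap := fun r x => Structure.RelMap r (en ∘ x) }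
  exact ⟨m, inferInstance,
    { toFun := en, inj' := hinj, map_fun' := fun f => isEmptyElim f,
      map_rel' := fun _ _ => Iff.rfl }, hen⟩

theorem exists_aut [L.IsRelational] (hM : L.IsUltrahomogeneous M) {B : Type} [L.Structure B]
    [Finite B] (ι e : B ↪[L] M) : ∃ k : M ≃[L] M, ∀ b, k (ι b) = e b := by
  have hfin : Finite ι.toHom.range := Finite.of_equiv _ ι.equivRange.toEquiv
  obtain ⟨k, hk⟩ := hM ι.toHom.range (Substructure.fg_iff_finite.2 hfin)
    (e.comp ι.equivRange.symm.toEmbedding)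
  refine ⟨k, fun b => ?_⟩
  have := (Embedding.ext_iff.1 hk) (ι.equivRange b)
  simpa using this.symm

theorem mem_act {n : ℕ} (k : M ≃[L] M) (p q : (L.elementaryDiagram M).CompleteType (Fin n))
    (h : q.toTheory = act L M n k.symm p) (θ : L[[M]][[Fin n]].Sentence) :
    θ ∈ q ↔ (sh L n k).onSentence θ ∈ p := by
  show θ ∈ q.toTheory ↔ _ ∈ p.toTheory
  rw [h]
  constructor
  · rintro ⟨θ', h1, rfl⟩
    have : (sh L n k).onSentence ((sh L n (fun b : M => k.symm b)).onSentence θ') = θ' := by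
      rw [sh_sh]
      convert sh_id_apply n θ'
      funext b
      simp
    exact this.symm ▸ h1
  · intro h1
    refine ⟨_, h1, ?_⟩
    show (sh L n (fun b : M => k.symm b)).onSentence _ = θ
    rw [sh_sh]
    convert sh_id_apply n θ
    funext b
    simp

theorem finite_step [L.IsRelational] (hM : L.IsUltrahomogeneous M) (hE : EDRP L M) {n : ℕ}
    (p : (L.elementaryDiagram M).CompleteType (Fin n)) (ψ : L[[M]][[Fin n]].Sentence)
    (T : Set (M ≃[L] M)) (hT : T.Finite) :
    ∃ k : M ≃[L] M, ∀ g ∈ T, ∀ h ∈ T,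
      ((sh L n (k ∘ g)).onSentence ψ ∈ p ↔ (sh L n (k ∘ h)).onSentence ψ ∈ p) := by
  classical
  obtain ⟨N⟩ := p.isMaximal.1
  have hmem : ∀ θ : L[[M]][[Fin n]].Sentence, θ ∈ p ↔ N ⊨ θ := fun θ =>
    (p.isMaximal.mem_iff_models θ).trans (p.isMaximal.isComplete.realize_sentence_iff θ N).symm
  letI := mid N.struc
  letI := base N.struc
  haveI : (L[[M]].lhomWithConstants (Fin n)).IsExpansionOn N := LHom.isExpansionOn_reduct _ _
  haveI : (L.lhomWithConstants M).IsExpansionOn N := LHom.isExpansionOn_reduct _ _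
  haveI : N ⊨ L.elementaryDiagram M :=
    (LHom.onTheory_model (L[[M]].lhomWithConstants (Fin n)) _).1 (N.is_model.mono p.subset)
  let j : M ↪ₑ[L] N := ElementaryEmbedding.ofModelsElementaryDiagram L M N
  have hj : ∀ b, j b = cM N.struc b := fun b => rfl
  let A0 : Set M := {b | Sum.inl b ∈ BoundedFormula.freeVarFinset (tr ψ)}
  have hA0 : A0.Finite :=
    (Finset.finite_toSet (BoundedFormula.freeVarFinset (tr ψ))).preimage
      Sum.inl_injective.injOn
  obtain ⟨a, _, ιA, hιA⟩ := exists_enum (L := L) A0 hA0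
  let B0 : Set M := ⋃ g ∈ T, (fun b => g b) '' A0
  have hB0 : B0.Finite := hT.biUnion fun g _ => hA0.image _
  obtain ⟨b, _, ιB, hιB⟩ := exists_enum (L := L) B0 hB0
  have hpre : ∀ x : BoundedFormula.freeVarFinset (tr ψ), ∃ y : Fin n ⊕ Fin a,
      Sum.elim Sum.inr (fun i => Sum.inl (ιA i)) y = x.1 := by
    rintro ⟨x | x, hx⟩
    · have : x ∈ Set.range ιA := hιA.symm ▸ hx
      obtain ⟨i, rfl⟩ := this
      exact ⟨Sum.inr i, rfl⟩
    · exact ⟨Sum.inl x, rfl⟩
  choose r hr using hpre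
  let φ : L.Formula (Fin n ⊕ Fin a) := BoundedFormula.restrictFreeVar (tr ψ) r
  have hφ : ∀ (f : M → M), (sh L n f).onSentence ψ ∈ p ↔
      φ.Realize (Sum.elim (cv N.struc) (fun i => j (f (ιA i)))) := by
    intro f
    rw [hmem, realize_sh]
    refine (BoundedFormula.realize_restrictFreeVar _ ?_).symm
    intro x
    rw [← hr x]
    rcases r x with y | y <;> rfl
  let χ : (Fin a ↪[L] M) → Fin 2 := fun f =>
    if φ.Realize (Sum.elim (cv N.struc) (fun i => j (f i))) then 0 else 1
  obtain ⟨e, he⟩ := hE a inferInstance (Fin b) inferInstance inferInstance ⟨ιA⟩ ⟨ιB⟩ 2 (by norm_num)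
    χ ⟨N, inferInstance, j, n, cv N.struc, ![φ, φ.not], by
      intro f i
      fin_cases i
      · simp only [Fin.zero_eta, Matrix.cons_val_zero, χ]
        split_ifs with h <;> simp [h]
      · simp only [Fin.mk_one, Matrix.cons_val_one, Matrix.cons_val_zero, Formula.realize_not, χ]
        split_ifs with h <;> simp [h]⟩
  obtain ⟨k, hk⟩ := exists_aut hM ιB e
  have hrange : ∀ g ∈ T,
      Set.range ((k.toEmbedding.comp g.toEmbedding).comp ιA) ⊆ Set.range e := by
    rintro g hg _ ⟨i, rfl⟩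
    have h1 : g (ιA i) ∈ B0 := by
      refine Set.mem_biUnion hg ⟨ιA i, ?_, rfl⟩
      rw [← hιA]
      exact ⟨i, rfl⟩
    rw [← hιB] at h1
    obtain ⟨y, hy⟩ := h1
    refine ⟨y, ?_⟩
    rw [← hk, hy]
    rfl
  refine ⟨k, fun g hg h hh => ?_⟩
  have := he _ _ (hrange g hg) (hrange h hh)
  rw [hφ, hφ]
  simp only [χ] at this
  change (if φ.Realize (Sum.elim (cv N.struc) (fun i => j ((k ∘ g) (ιA i)))) then (0 : Fin 2) else 1) =
    (if φ.Realize (Sum.elim (cv N.struc) (fun i => j ((k ∘ h) (ιA i)))) then (0 : Fin 2) else 1) at this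
  split_ifs at this with h1 h2 h2
  · exact iff_of_true h1 h2
  · exact absurd this (by decide)
  · exact absurd this (by decide)
  · exact iff_of_false h1 h2

/-- subflows -/
def Sub {n : ℕ} (X : Set ((L.elementaryDiagram M).CompleteType (Fin n))) : Prop :=
  X.Nonempty ∧ IsClosed X ∧ ∀ (g : M ≃[L] M), ∀ p ∈ X, ∃ q ∈ X, q.toTheory = act L M n g p

def Fx {n : ℕ} (ψ : L[[M]][[Fin n]].Sentence) (gh : (M ≃[L] M) × (M ≃[L] M)) :
    Set ((L.elementaryDiagram M).CompleteType (Fin n)) :=
  {q | (sh L n gh.1).onSentence ψ ∈ q ↔ (sh L n gh.2).onSentence ψ ∈ q}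

theorem isClosed_Fx {n : ℕ} (ψ : L[[M]][[Fin n]].Sentence) (gh : (M ≃[L] M) × (M ≃[L] M)) :
    IsClosed (Fx ψ gh) := by
  have h1 := CompleteType.isClopen_typesWith (T := L.elementaryDiagram M)
    ((sh L n gh.1).onSentence ψ)
  have h2 := CompleteType.isClopen_typesWith (T := L.elementaryDiagram M)
    ((sh L n gh.2).onSentence ψ)
  have := ((h1.inter h2).union (h1.compl.inter h2.compl)).isClosed
  convert this using 1
  ext q
  simp only [Fx, Set.mem_ofPred_eq, Set.mem_union, Set.mem_inter_iff, Set.mem_compl_iff,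
    Theory.CompleteType.mem_typesWith_iff]
  tauto

theorem sub_step [L.IsRelational] (hM : L.IsUltrahomogeneous M) (hE : EDRP L M) {n : ℕ}
    (X : Set ((L.elementaryDiagram M).CompleteType (Fin n))) (hX : Sub X)
    (ψ : L[[M]][[Fin n]].Sentence) : Sub (X ∩ ⋂ gh, Fx ψ gh) := by
  classical
  refine ⟨?_, hX.2.1.inter (isClosed_iInter fun gh => isClosed_Fx ψ gh), ?_⟩
  · refine hX.2.1.isCompact.inter_iInter_nonempty _ (fun gh => isClosed_Fx ψ gh) ?_
    intro U
    obtain ⟨p, hp⟩ := hX.1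
    obtain ⟨k, hk⟩ := finite_step hM hE p ψ 
      (Prod.fst '' (U : Set ((M ≃[L] M) × (M ≃[L] M))) ∪
        Prod.snd '' (U : Set ((M ≃[L] M) × (M ≃[L] M))))
      ((U.finite_toSet.image _).union (U.finite_toSet.image _))
    obtain ⟨q, hq, hq2⟩ := hX.2.2 k.symm p hp
    refine ⟨q, hq, ?_⟩
    simp only [Set.mem_iInter]
    intro gh hgh
    show _ ↔ _
    rw [mem_act k p q hq2, mem_act k p q hq2, sh_sh, sh_sh]
    exact hk _ (Or.inl ⟨gh, hgh, rfl⟩) _ (Or.inr ⟨gh, hgh, rfl⟩)
  · intro g p hp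
    obtain ⟨q, hq, hq2⟩ := hX.2.2 g p hp.1
    refine ⟨q, ⟨hq, ?_⟩, hq2⟩
    simp only [Set.mem_iInter]
    intro gh
    show _ ↔ _
    rw [mem_act g.symm p q hq2, mem_act g.symm p q hq2, sh_sh, sh_sh]
    exact Set.mem_iInter.1 hp.2 (g.symm.comp gh.1, g.symm.comp gh.2)

theorem main (L : FirstOrder.Language.{0, 0}) [L.IsRelational] (M : Type u) [L.Structure M]
    (hM : L.IsUltrahomogeneous M) (hE : EDRP L M) : FPT L M := by
  classical
  intro n _ X h1 h2 h3
  have hX : Sub X := ⟨h1, h2, h3⟩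
  have hfin : ∀ U : Finset (L[[M]][[Fin n]].Sentence), Sub (X ∩ ⋂ ψ ∈ U, ⋂ gh, Fx ψ gh) := by
    intro U
    induction U using Finset.induction_on with
    | empty => simpa using hX
    | insert ψ U _ ih =>
      have := sub_step hM hE _ ih ψ
      convert this using 1
      rw [Finset.set_biInter_insert, Set.inter_assoc, Set.inter_comm (⋂ gh, Fx ψ gh)]
  obtain ⟨p, hp, hp2⟩ := h2.isCompact.inter_iInter_nonempty
    (fun ψ : L[[M]][[Fin n]].Sentence => ⋂ gh, Fx ψ gh)
    (fun ψ => isClosed_iInter fun gh => isClosed_Fx ψ gh) (fun U => (hfin U).1)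
  have key : ∀ (g : M ≃[L] M) (ψ : L[[M]][[Fin n]].Sentence),
      (sh L n g).onSentence ψ ∈ p ↔ ψ ∈ p := by
    intro g ψ
    have := Set.mem_iInter.1 (Set.mem_iInter.1 hp2 ψ) (g, Language.Equiv.refl L M)
    refine Iff.trans this ?_
    have e : (sh L n (Language.Equiv.refl L M)).onSentence ψ = ψ := sh_id_apply n ψ
    show (sh L n (Language.Equiv.refl L M)).onSentence ψ ∈ p ↔ _
    rw [e]
  refine ⟨p, hp, fun g => ?_⟩
  ext θ
  constructor
  · rintro ⟨θ', h1, rfl⟩
    exact (key g θ').2 h1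
  · intro h1
    refine ⟨(sh L n g.symm).onSentence θ, (key g.symm θ).2 h1, ?_⟩
    show (sh L n g).onSentence _ = θ
    rw [sh_sh]
    convert sh_id_apply n θ
    funext b
    simp

end Pool.Agent.P.MP_fdecab_lc
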